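import Pool.Agent.H183.NI.ALL

/-!
# Planar difference sets whose order is the value of a polynomial

For a polynomial `f` which is not a square the planar difference sets of order `f(t)` are excluded for
almost all `t` by a self-conjugate prime (earlier library result). If `f = g ^ 2` the order is a square,
`v = n ^ 2 + n + 1 = (u ^ 2 + u + 1) (u ^ 2 - u + 1)` with `u = |g(t)|`, and self-conjugacy gives nothing.
Here, for groups `G` with a commutator subgroup of bounded order, every large prime factor `r` of `u` is a
multiplier of the image in `G / G'` (second multiplier theorem), and if a power of `r` is `-1` modulo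
`w₁ w₂` with primes `w₁ ∣ u ^ 2 + u + 1`, `w₂ ∣ u ^ 2 - u + 1`, then the characters of a quotient of order
`w₁ w₂` take the values `± u`, a contradiction. Chebotarev's theorem, for primes `w₁`, `w₂` with the
same power of `2` in `w - 1` and for primes `r` which are nonresidues modulo `w₁` and `w₂`, shows that
such `w₁`, `w₂`, `r` exist for almost all `t`.
-/

set_option autoImplicit false

namespace Pool.Agent.Results.MP_79499b_co.AllPolynomialOrders

open Filter Topology Polynomial

/-- Some finite group `G` of order `n ^ 2 + n + 1`, with a commutator subgroup of order at most `C`,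
contains a planar difference set `D` of order `n`: it has `n + 1` elements, and each `g ≠ 1` is the
quotient `x y⁻¹` of exactly one pair of elements of `D`. These are the difference sets with the Singer
parameters of `(n, 3)`. For `C = 1` the groups are the abelian ones. -/
def HasPlanarDifferenceSet (C n : ℕ) : Prop :=
  ∃ (G : Type) (_ : Group G) (_ : Fintype G) (_ : DecidableEq G) (D : Finset G),
    Nat.card (commutator G) ≤ C ∧ Fintype.card G = n ^ 2 + n + 1 ∧ D.card = n + 1 ∧
    ∀ g : G, g ≠ 1 → ((D ×ˢ D).filter (fun p : G × G => p.1 * p.2⁻¹ = g)).card = 1

/-- Let `f` be ANY nonconstant polynomial with integer coefficients, perfect squares included, and let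
`C` be given. The integers `t ≥ 0` such that `f(t) = n ≥ 2` is the order of a planar difference set in
some finite group with a commutator subgroup of order at most `C` have density zero. -/
theorem result (C : ℕ) (f : ℤ[X]) (hf : 0 < f.natDegree) :
    Tendsto (fun N : ℕ => ({t : ℕ | t < N ∧ ∃ n : ℕ, 2 ≤ n ∧ f.eval (t : ℤ) = n ∧
      HasPlanarDifferenceSet C n}.ncard : ℝ) / N) atTop (𝓝 0) :=
  Pool.Agent.H183.NI.planar Pool.Agent.H183.NI.sqpn Pool.Agent.H183.PO.t_GAUSS C f hf

end Pool.Agent.Results.MP_79499b_co.AllPolynomialOrders
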