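import Pool.Agent.H180.Sg.NoPersp

/-!
# Planar difference sets of non-prime-power order: Desargues' theorem fails often, without exceptions

Let `D` be a planar difference set of order `n` (the case `m = 3` of the Singer parameters) in a finite
group `G`, abelian or not. The elements of `G` are the points and the translates `D a` the lines of a
projective plane of order `n`. The classical examples (Singer) are Desarguesian; it is unknown whether
there are any if `n` is not a prime power.

Let `n` be not a prime power. Then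

1. there are no central collineations: a permutation of the points which maps lines to lines is the
   identity if it fixes all points of a line, or all lines through a point;
2. Desargues' theorem fails more than `n ^ 3 / 1000` times for EVERY centre `C`, EVERY axis `a` (through
   `C` or not) and EVERY pair `x ≠ y` of points off `a` and collinear with `C`: there are so many pairs of
   triangles `A`, `B` in perspective from `C` with `A 0 = x`, `B 0 = y` such that two pairs of corresponding
   sides meet on `a` but the third does not. (There are at most about `n ^ 4` pairs of triangles such that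
   two pairs of sides meet on `a`.)

Proof of 1. Let `K` be the set of the centres of elations with axis `D`, and assume `κ ∈ K`, `δ ∈ D \ K`.
Translate by `δ⁻¹ κ`: there is an elation with centre `κ δ⁻¹ κ` and axis `D δ⁻¹ κ`. The line `D δ⁻¹ κ`
contains `κ`. If `κ δ⁻¹ κ` is not in `D`, then the commutator of the two elations has the centre `κ` and the
axis `D δ⁻¹ κ`, so `δ ∈ K`. So `e = κ δ⁻¹ κ ∈ D` and `κ δ⁻¹ = e κ⁻¹` contradicts the definition of a
planar difference set. Hence `K` is empty or `K = D`; the second is impossible because at most `n / 2 - 1`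
points of a line are centres of elations if `n` is not a prime power. So there are no elations, hence there
is only one homology axis for a centre, and if `c`, `D` are the centre and the axis of a homology, `c g⁻¹ ∈ D`
implies `c g ∈ D`: the translates `c⁻¹ D g` define a polarity without absolute points, a contradiction.
2. follows from 1. by the local gap theorem of the library.
-/

set_option autoImplicit false

namespace Pool.Agent.Results.MP_79499b_co.DesarguesFailsEverywhere

open Finset

section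

variable {G : Type} [Group G]

/-- `D` is a `(v, k, lam)` difference set in the group `G` of order `v`. -/
def IsDifferenceSet [Fintype G] [DecidableEq G] (D : Finset G) (v k lam : ℕ) : Prop :=
  Fintype.card G = v ∧ D.card = k ∧
    ∀ g : G, g ≠ 1 → ((D ×ˢ D).filter fun p => p.1 * p.2⁻¹ = g).card = lam

/-- The point `x` is on the line `a`, that is in the translate `D a`. -/
def On (D : Finset G) (x a : G) : Prop := x * a⁻¹ ∈ D

/-- The triangles `A` and `B` are in perspective from the point `O`: `A i`, `B i` and `O` are different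
points of a line `l i`, these three lines are different, and `A`, `B` are not collinear. -/
def PerspPt (D : Finset G) (O : G) (A B : Fin 3 → G) : Prop :=
  (∀ i, A i ≠ O ∧ B i ≠ O ∧ A i ≠ B i) ∧
  (∃ l : Fin 3 → G, Function.Injective l ∧ ∀ i, On D O (l i) ∧ On D (A i) (l i) ∧ On D (B i) (l i)) ∧
  (¬ ∃ l : G, ∀ i, On D (A i) l) ∧ ¬ ∃ l : G, ∀ i, On D (B i) l

/-- The sides `A i A j` and `B i B j` meet on the line `a`: some point of `a` is on every line
through `A i, A j` and on every line through `B i, B j`. -/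
def Meet (D : Finset G) (a : G) (A B : Fin 3 → G) (i j : Fin 3) : Prop :=
  ∃ p, On D p a ∧ (∀ l : G, On D (A i) l → On D (A j) l → On D p l) ∧
    ∀ l : G, On D (B i) l → On D (B j) l → On D p l

open Classical in
/-- The failures of Desargues' theorem with centre `C`, axis `a` and first pair `x`, `y`: pairs of
triangles `A`, `B` in perspective from `C` with `A 0 = x`, `B 0 = y` such that two pairs of
corresponding sides meet on the line `a` and the third pair does not. -/
noncomputable def failures [Fintype G] (D : Finset G) (C a x y : G) :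
    Finset ((Fin 3 → G) × (Fin 3 → G)) :=
  univ.filter fun t => PerspPt D C t.1 t.2 ∧ t.1 0 = x ∧ t.2 0 = y ∧
    Meet D a t.1 t.2 0 1 ∧ Meet D a t.1 t.2 0 2 ∧ ¬ Meet D a t.1 t.2 1 2

/-- The permutation `σ` of the points is a collineation: it maps the lines to the lines, `τ` is the
permutation of the lines. -/
def IsCollineation (D : Finset G) (σ τ : Equiv.Perm G) : Prop :=
  ∀ x a : G, On D (σ x) (τ a) ↔ On D x a

end

section

open Pool.Agent.H180.Sg Configuration Pool.Agent.H180.Pf Pool.Agent.H634R3.WG Pool.Agent.N367.PPD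

variable {G : Type} [Group G] {D : Finset G}

lemma on_iff (x a : G) : On D x a ↔ (⟨x⟩ : Pt D) ∈ (⟨a⟩ : Ln D) := Iff.rfl

/-- a collineation as an element of the group of collineations of the plane -/
theorem exists_aut {σ τ : Equiv.Perm G} (h : IsCollineation D σ τ) :
    ∃ g : Aut (Pt D) (Ln D), (∀ x : G, g • (⟨x⟩ : Pt D) = ⟨σ x⟩) ∧
      ∀ a : G, g • (⟨a⟩ : Ln D) = ⟨τ a⟩ := by
  refine ⟨⟨(((ptEquiv D).trans σ).trans (ptEquiv D).symm,
    ((lnEquiv D).trans τ).trans (lnEquiv D).symm), ?_⟩, fun x => rfl, fun a => rfl⟩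
  rintro ⟨x⟩ ⟨a⟩
  exact h x a

theorem eq_one_of_aut {σ : Equiv.Perm G} {g : Aut (Pt D) (Ln D)}
    (h : ∀ x : G, g • (⟨x⟩ : Pt D) = ⟨σ x⟩) (hg : g = 1) : σ = 1 := by
  ext x
  have h1 := h x
  rw [hg, one_smul] at h1
  exact (congrArg Pt.v h1).symm

open Classical in
theorem loc_le [Fintype G] (C a x y : G) :
    (locSet (⟨a⟩ : Ln D) (⟨C⟩ : Pt D) ⟨x⟩ ⟨y⟩).card ≤ (failures D C a x y).card := by
  apply card_le_card_of_injOn (fun t => (fun i => (t.1 i).v, fun i => (t.2 i).v))
  · rintro ⟨A, B⟩ ht
    rw [mem_coe] at ht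
    unfold locSet at ht
    rw [mem_filter] at ht
    obtain ⟨-, ⟨h1, ⟨l, hl, h2⟩, h3, h4⟩, h5, h6, h7, h8, h9⟩ := ht
    simp only at h1 h2 h3 h4 h5 h6 h7 h8 h9
    have meet : ∀ i j, Pool.Agent.N367.PPD.Meet (⟨a⟩ : Ln D) A B i j ↔
        Meet D a (fun i => (A i).v) (fun i => (B i).v) i j := by
      intro i j
      constructor
      · rintro ⟨p, k1, k2, k3⟩
        exact ⟨p.v, k1, fun l => k2 ⟨l⟩, fun l => k3 ⟨l⟩⟩
      · rintro ⟨p, k1, k2, k3⟩
        exact ⟨⟨p⟩, k1, fun l => k2 l.v, fun l => k3 l.v⟩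
    rw [mem_coe]
    unfold failures
    rw [mem_filter]
    refine ⟨mem_univ _, ⟨fun i => ?_, ⟨fun i => (l i).v, fun i j e => hl (Ln.ext e),
      fun i => h2 i⟩, ?_, ?_⟩, congrArg Pt.v h5, congrArg Pt.v h6, (meet 0 1).1 h7,
      (meet 0 2).1 h8, fun h => h9 ((meet 1 2).2 h)⟩
    · obtain ⟨k1, k2, k3⟩ := h1 i
      exact ⟨fun e => k1 (Pt.ext e), fun e => k2 (Pt.ext e), fun e => k3 (Pt.ext e)⟩
    · rintro ⟨m, hm⟩
      exact h3 ⟨⟨m⟩, hm⟩
    · rintro ⟨m, hm⟩
      exact h4 ⟨⟨m⟩, hm⟩
  · rintro ⟨A, B⟩ - ⟨A', B'⟩ - e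
    simp only [Prod.mk.injEq] at e
    rw [Prod.mk.injEq]
    exact ⟨funext fun i => Pt.ext (congrFun e.1 i), funext fun i => Pt.ext (congrFun e.2 i)⟩

variable [Fintype G] [DecidableEq G] {n : ℕ}

theorem isPDS (hn : 2 ≤ n) (h : IsDifferenceSet D (n ^ 2 + n + 1) (n + 1) 1) : IsPDS D n := by
  obtain ⟨h1, h2, h3⟩ := h
  refine ⟨hn, h2, h1, fun g hg => ?_, fun d hd e he d' hd' e' he' hde heq => ?_⟩
  · obtain ⟨⟨d, e⟩, hp⟩ := card_eq_one.1 (h3 g hg)
    have : (d, e) ∈ (D ×ˢ D).filter fun p => p.1 * p.2⁻¹ = g := by rw [hp]; simp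
    rw [mem_filter, mem_product] at this
    exact ⟨d, this.1.1, e, this.1.2, this.2⟩
  · have hg : d * e⁻¹ ≠ 1 := fun h => hde (mul_inv_eq_one.1 h)
    obtain ⟨p, hp⟩ := card_eq_one.1 (h3 _ hg)
    have k1 : (d, e) ∈ (D ×ˢ D).filter fun p => p.1 * p.2⁻¹ = d * e⁻¹ := by simp [hd, he]
    have k2 : (d', e') ∈ (D ×ˢ D).filter fun p => p.1 * p.2⁻¹ = d * e⁻¹ := by
      simp [hd', he', heq]
    rw [hp, mem_singleton] at k1 k2
    have := k1.trans k2.symm
    exact ⟨congrArg Prod.fst this, congrArg Prod.snd this⟩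

/-- **Desargues' theorem fails everywhere.** -/
theorem result (n : ℕ) (hn : 2 ≤ n) (hpp : ¬ IsPrimePow n)
    (hD : IsDifferenceSet D (n ^ 2 + n + 1) (n + 1) 1) :
    -- (1) there are no central collineations
    (∀ σ τ : Equiv.Perm G, IsCollineation D σ τ →
      ((∃ a, ∀ x, On D x a → σ x = x) ∨ ∃ x, ∀ a, On D x a → τ a = a) → σ = 1) ∧
    -- (2) if `n` is not a square, there are no collineations of order two
    (¬ IsSquare n → ∀ σ τ : Equiv.Perm G, IsCollineation D σ τ → σ * σ = 1 → σ = 1) ∧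
    -- (3) Desargues' theorem fails often, for all centres, axes and first pairs
    ∀ C a x y : G, ¬ On D x a → ¬ On D y a → x ≠ C → y ≠ C → x ≠ y →
      (∃ l, On D C l ∧ On D x l ∧ On D y l) → n ^ 3 < 1000 * (failures D C a x y).card := by
  have h := isPDS hn hD
  let _ := plane h
  have ho : ProjectivePlane.order (Pt D) (Ln D) = n := order_eq h
  have hC := aut_col (P := Pt D) (L := Ln D)
  have hno := no_persp h hpp
  have hn3 : 3 ≤ ProjectivePlane.order (Pt D) (Ln D) := by
    rw [ho]
    rcases Nat.lt_or_ge n 3 with h3 | h3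
    · exfalso
      have : n = 2 := by omega
      subst this
      exact hpp Nat.prime_two.isPrimePow
    · exact h3
  have h1 : ∀ σ τ : Equiv.Perm G, IsCollineation D σ τ →
      ((∃ a, ∀ x, On D x a → σ x = x) ∨ ∃ x, ∀ a, On D x a → τ a = a) → σ = 1 := by
    intro σ τ hσ hor
    obtain ⟨g, hg1, hg2⟩ := exists_aut hσ
    rcases hor with ⟨a, ha⟩ | ⟨x, hx⟩
    · obtain ⟨c, hc⟩ := TaskAxis.taskAxis (Aut (Pt D) (Ln D)) (Pt D) (Ln D) hC g ⟨a⟩
        (fun p hp => by
          have := hg1 p.v
          rw [ha p.v hp] at this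
          exact this)
      exact eq_one_of_aut hg1 (hno g c _ hc)
    · obtain ⟨b, hb⟩ := TaskAxis.taskCentre (Aut (Pt D) (Ln D)) (Pt D) (Ln D) hC g ⟨x⟩
        (fun l hl => by
          have := hg2 l.v
          rw [hx l.v hl] at this
          exact this)
      exact eq_one_of_aut hg1 (hno g _ b hb)
  refine ⟨h1, fun hsq σ τ hσ hσ2 => ?_, ?_⟩
  · obtain ⟨g, hg1, hg2⟩ := exists_aut hσ
    have hg : g * g = 1 := by
      apply hC.ff
      rintro ⟨x⟩
      rw [mul_smul, hg1, hg1]
      have : σ (σ x) = x := congrArg (fun ρ : Equiv.Perm G => ρ x) hσ2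
      rw [this]
    rcases TaskBaer.taskBaer (Aut (Pt D) (Ln D)) (Pt D) (Ln D) hC g hg with hs | ⟨l, hl⟩
    · rw [ho] at hs
      exact absurd hs hsq
    · refine h1 σ τ hσ (Or.inl ⟨l.v, fun x hx => ?_⟩)
      have h2 := hl ⟨x⟩ hx
      rw [hg1] at h2
      exact congrArg Pt.v h2
  · rintro C a x y hx hy hxC hyC hxy ⟨l, l1, l2, l3⟩
    have hxC' : (⟨C⟩ : Pt D) ≠ ⟨x⟩ := fun e => hxC (congrArg Pt.v e).symm
    have hadm : Adm (⟨a⟩ : Ln D) (⟨C⟩ : Pt D) ⟨x⟩ ⟨y⟩ := by
      refine ⟨hx, hy, hxC', fun e => hyC (congrArg Pt.v e).symm, fun e => hxy (congrArg Pt.v e), ?_⟩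
      have : (⟨l⟩ : Ln D) = jn (Ln D) (⟨C⟩ : Pt D) ⟨x⟩ := eq_jn hxC' l1 l2
      rw [← this]
      exact l3
    rcases gap hn3 hadm with ⟨g, hg, hgx⟩ | h4
    · exfalso
      have h5 : (⟨g, hg.1.1⟩ : Aut (Pt D) (Ln D)) = 1 := hno ⟨g, hg.1.1⟩ _ _ ⟨hg.1.2, hg.2⟩
      have h6 : g = 1 := congrArg Subtype.val h5
      rw [h6] at hgx
      exact hxy (congrArg Pt.v hgx)
    · rw [ho] at h4
      refine lt_of_lt_of_le h4 (Nat.mul_le_mul_left _ ?_)
      refine le_trans (le_of_eq ?_) (loc_le C a x y)
      congr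

end

end Pool.Agent.Results.MP_79499b_co.DesarguesFailsEverywhere
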