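import Pool.Agent.H183.MU.LIFT
import Pool.Agent.H183.MU.MULT
import Pool.Agent.H183.MU.FIX
import Pool.Agent.H183.MU.EVEN
import Pool.Agent.H183.MU.KEY
import Pool.Agent.H183.MU.CNT
import Pool.Agent.H183.MU.PAIRS
import Pool.Agent.H183.MU.DENS
import Pool.Agent.H183.MU.DIR
import Pool.Agent.H183.MU.CLSROOT
import Pool.Agent.H183.MU.MERT
import Pool.Agent.H183.MU.MER
import Pool.Agent.H183.MU.ALM
import Pool.Agent.H183.MU.FIN

/-!
# Difference sets with Singer parameters in abelian groups: even dimensions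

The results of the starting library on the number of all orders `n ≤ X` concern odd dimensions `m`
(there `n ^ (m - 2)` is not a square and the test of Mann and Lander with one prime factor of `n`
applies), or lifted difference sets, or, for even `m`, integers `n` with a bounded number of
prime factors. Here `m` is even and `n` is arbitrary. If `n` has a prime factor `p` with
`p ^ (m - 2) > λ` then `p` is a multiplier of every difference set with the parameters of `(n, m)` in
an abelian group (second multiplier theorem, proved in `H183/MU/MULT.lean`). If moreover there are odd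
primes `w₁ ∣ n ^ (m/2) + 1`, `w₂ ∣ n ^ (m/2) - 1`, `w₂ ∤ n - 1`, such that a power of `p` is `-1`
modulo `w₁ w₂`, then the characters of the quotient of order `w₁ w₂` take the values
`± n ^ (m/2 - 1)`, and the residues of `k` modulo `w₁` and `w₂` give a contradiction. A sieve shows
that such primes exist for almost all these `n`.
-/

set_option autoImplicit false

namespace Pool.Agent.Results.MP_79499b_co.EvenDimensionDensity

/-- Some finite abelian group `G` of order `(n ^ m - 1) / (n - 1)` contains a difference set `D`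
with the Singer parameters: `k = (n ^ (m - 1) - 1) / (n - 1)`,
`lambda = (n ^ (m - 2) - 1) / (n - 1)`. -/
def HasAbelianSingerDifferenceSet (n m : ℕ) : Prop :=
  ∃ (G : Type) (_ : CommGroup G) (_ : Fintype G) (_ : DecidableEq G) (D : Finset G),
    Fintype.card G * (n - 1) = n ^ m - 1 ∧ D.card * (n - 1) = n ^ (m - 1) - 1 ∧
    ∀ g : G, g ≠ 1 →
      ((D ×ˢ D).filter (fun p : G × G => p.1 * p.2⁻¹ = g)).card * (n - 1) = n ^ (m - 2) - 1

/-- Let `K ≥ 4` and `ε > 0`. Consider all the dimensions `m` with `3 ≤ m ≤ K`, even or odd (and also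
all odd `m ≥ 3` with a prime factor at most `K`). For all large `X`:

(1) almost all integers `n` with a prime factor `p`, `p ^ (K - 2) ≥ 2 n ^ (K - 3)`, are excluded: for
at most `ε X` of those up to `X` some finite abelian group contains a difference set with the Singer
parameters of `(n, m)` for one of these `m`;

(2) for at most `(1 - log ((K - 2) / (K - 3)) + ε) X` integers `2 ≤ n ≤ X` some finite
abelian group contains a difference set with the Singer parameters of `(n, m)` for one of these `m`.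
For `K = 4` the constant is `1 - log 2 = 0.306...`. -/
theorem result (K : ℕ) (hK : 4 ≤ K) (ε : ℝ) (hε : 0 < ε) :
    ∃ X₀ : ℕ, ∀ X : ℕ, X₀ ≤ X →
      ({n : ℕ | 2 ≤ n ∧ n ≤ X ∧
        (∃ p : ℕ, p.Prime ∧ p ∣ n ∧ 2 * n ^ (K - 3) ≤ p ^ (K - 2)) ∧
        ∃ m : ℕ, 3 ≤ m ∧ (m ≤ K ∨ (Odd m ∧ m.minFac ≤ K)) ∧
          HasAbelianSingerDifferenceSet n m}.ncard : ℝ) ≤ ε * X ∧
      ({n : ℕ | 2 ≤ n ∧ n ≤ X ∧
        ∃ m : ℕ, 3 ≤ m ∧ (m ≤ K ∨ (Odd m ∧ m.minFac ≤ K)) ∧
          HasAbelianSingerDifferenceSet n m}.ncard : ℝ) ≤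
        (1 - Real.log (((K : ℝ) - 2) / ((K : ℝ) - 3)) + ε) * X :=
  Pool.Agent.H183.MU.t_FIN
    (Pool.Agent.H183.MU.t_ALM
      (Pool.Agent.H183.MU.t_KEY (Pool.Agent.H183.MU.t_MULT Pool.Agent.H183.MU.t_LIFT)
        Pool.Agent.H183.MU.t_FIX Pool.Agent.H183.MU.t_EVEN)
      (Pool.Agent.H183.MU.t_DENS Pool.Agent.H183.MU.t_CNT Pool.Agent.H183.MU.t_PAIRS)
      Pool.Agent.H183.MU.t_DIR Pool.Agent.H183.MU.t_CLS Pool.Agent.H183.MU.t_ROOT)
    (Pool.Agent.H183.MU.t_MER Pool.Agent.H183.MU.t_MERT) K hK ε hε

end Pool.Agent.Results.MP_79499b_co.EvenDimensionDensity
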