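import Pool.Agent.H183.MU.LIFT
import Pool.Agent.H183.GL.LIFT2
import Pool.Agent.H183.GL.GLUE
import Pool.Agent.H183.GL.SMP
import Pool.Agent.H183.GL.WSET
import Pool.Agent.H183.GL.NOW
import Pool.Agent.H183.GL.SQBN
import Pool.Agent.H183.GL.HP
import Pool.Agent.H183.GL.BP1
import Pool.Agent.H183.GL.BP2
import Pool.Agent.H183.GL.HL
import Pool.Agent.H183.GL.BF1
import Pool.Agent.H183.GL.BF2
import Pool.Agent.H183.GL.RHO1
import Pool.Agent.H183.GL.RHO2
import Pool.Agent.H183.GL.GS1
import Pool.Agent.H183.GL.GS2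
import Pool.Agent.H183.GL.CRT
import Pool.Agent.H183.GL.SIEVE
import Pool.Agent.H183.GL.F3A
import Pool.Agent.H183.GL.F3B
import Pool.Agent.H183.GL.KAP
import Pool.Agent.H183.GL.LOGS
import Pool.Agent.H183.GL.BF3
import Pool.Agent.H183.NI.IMG
import Pool.Agent.H183.NI.MULTF
import Pool.Agent.H183.NI.FIXF
import Pool.Agent.H183.NI.PUSHF
import Pool.Agent.H183.NI.SIZEF
import Pool.Agent.H183.NI.COMM
import Pool.Agent.H183.NI.KEY2N
import Pool.Agent.H183.NI.KEY3N
import Pool.Agent.H183.NI.CNTP
import Pool.Agent.H183.NI.CUB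
import Pool.Agent.H183.NI.SMT
import Pool.Agent.H183.NI.CF4
import Pool.Agent.H183.NI.SMO2
import Pool.Agent.H183.NI.FINN
import Pool.Agent.H183.NI.FIN2N

/-!
# Difference sets with the parameters of PG(3, n) and PG(5, n) in nilpotent groups

For almost all `n` no nilpotent group, and no group with a commutator subgroup of bounded order,
contains a difference set with the Singer parameters of `(n, 4)` or `(n, 6)`. Here `n` is arbitrary, not
only an integer with a large prime factor.

Idea (gluing of multipliers). Let `G` have the order `v = w v'`, `w` a small prime factor of `n + 1`, and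
let `l` be a prime factor of `w - 1` with `l ∤ φ(v')`. Let `t ≡ 1` modulo `v'` and of order `l` modulo `w`.
Every prime `p` that is not an `l`-th power modulo `w` has a power `≡ t` modulo `v`. If this is so for
the prime factors `p` of `n` whose part of `n` is large then `t` is a multiplier of the image of the
difference set in `A = G / G'` (second multiplier theorem for several primes; the condition is that
the part of `n ^ (m - 2)` made of these primes is larger than `lambda |G'|`). The elements which are moved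
by `t` give different pairs with quotient in the subgroup of order `w` of `A`, so there are at most
`lambda |G'| (w - 1)` of them, and the fixed ones are in a subgroup of index `w`; together these are
too few. For nilpotent `G` the order of `G'` is at most the part of `v` made of the primes `q` with
`q ^ 3 ∣ v`, which is small for almost all `n`. For almost all `n` there is such a prime `w`: this is a
sieve problem; the large prime factors of `n ^ 2 + 1` and `n ^ 2 ± n + 1` are controlled by Selberg's
sieve.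
-/

set_option autoImplicit false

namespace Pool.Agent.Results.MP_79499b_co.NilpotentDimensionsFourAndSix

/-- Some finite group `G` of order `(n ^ m - 1) / (n - 1)` which is nilpotent or has a commutator
subgroup of order at most `C` contains a difference set `D` with the Singer parameters:
`k = (n ^ (m - 1) - 1) / (n - 1)`, `lambda = (n ^ (m - 2) - 1) / (n - 1)`. -/
def HasSingerDifferenceSet (C n m : ℕ) : Prop :=
  ∃ (G : Type) (_ : Group G) (_ : Fintype G) (_ : DecidableEq G) (D : Finset G),
    (Group.IsNilpotent G ∨ Nat.card (commutator G) ≤ C) ∧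
    Fintype.card G * (n - 1) = n ^ m - 1 ∧ D.card * (n - 1) = n ^ (m - 1) - 1 ∧
    ∀ g : G, g ≠ 1 →
      ((D ×ˢ D).filter (fun p : G × G => p.1 * p.2⁻¹ = g)).card * (n - 1) = n ^ (m - 2) - 1

/-- Let `K`, `C` and `ε > 0` be given. For all large `X` there are at most `ε X` integers `2 ≤ n ≤ X` such
that some finite group, nilpotent or with a commutator subgroup of order at most `C`, contains a
difference set with the Singer parameters of `(n, m)` for `m = 4`, or `m = 6`, or some odd `m ≥ 3` with
a prime factor at most `K`. In particular (`K = 7`) for almost all `n` there is no such difference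
set for all `m` with `3 ≤ m ≤ 7`. -/
theorem result (K C : ℕ) (ε : ℝ) (hε : 0 < ε) :
    ∃ X₀ : ℕ, ∀ X : ℕ, X₀ ≤ X →
      ({n : ℕ | 2 ≤ n ∧ n ≤ X ∧ ∃ m : ℕ, (m = 4 ∨ m = 6 ∨ (3 ≤ m ∧ Odd m ∧ m.minFac ≤ K)) ∧
        HasSingerDifferenceSet C n m}.ncard : ℝ) ≤ ε * X :=
  Pool.Agent.H183.NI.t_FIN2N
    (Pool.Agent.H183.NI.t_FINN
      (Pool.Agent.H183.NI.t_KEY3N (Pool.Agent.H183.NI.t_KEY2N Pool.Agent.H183.NI.t_IMG
        (Pool.Agent.H183.NI.t_MULTF (Pool.Agent.H183.GL.t_LIFT2 Pool.Agent.H183.MU.t_LIFT))
        Pool.Agent.H183.NI.t_FIXF Pool.Agent.H183.NI.t_TRF Pool.Agent.H183.NI.t_SIZEF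
        Pool.Agent.H183.GL.t_GLUE))
      (Pool.Agent.H183.NI.t_CF4 (Pool.Agent.H183.NI.t_CUB Pool.Agent.H183.NI.t_CNTP)
        (Pool.Agent.H183.NI.t_SMT Pool.Agent.H183.NI.t_CNTP))
      Pool.Agent.H183.NI.t_SMO2 Pool.Agent.H183.NI.t_COMM
      (Pool.Agent.H183.GL.t_WSET Pool.Agent.H183.GL.t_SMP)
      Pool.Agent.H183.GL.t_NOW
      Pool.Agent.H183.GL.t_SQ
      (Pool.Agent.H183.GL.t_BP1 Pool.Agent.H183.GL.t_HP)
      Pool.Agent.H183.GL.t_BP2
      (Pool.Agent.H183.GL.t_BN Pool.Agent.H183.GL.t_HL)
      (Pool.Agent.H183.GL.t_BF1 Pool.Agent.H183.GL.t_HL)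
      Pool.Agent.H183.GL.t_BF2
      (Pool.Agent.H183.GL.t_BF3
        (Pool.Agent.H183.GL.t_F3A (Pool.Agent.H183.GL.t_SIEVE Pool.Agent.H183.GL.t_CRT
          (Pool.Agent.H183.GL.t_GS2 Pool.Agent.H183.GL.t_GS1)))
        (Pool.Agent.H183.GL.t_F3B (Pool.Agent.H183.GL.t_SIEVE Pool.Agent.H183.GL.t_CRT
          (Pool.Agent.H183.GL.t_GS2 Pool.Agent.H183.GL.t_GS1)))
        Pool.Agent.H183.GL.t_KAP Pool.Agent.H183.GL.t_LOGS
        Pool.Agent.H183.GL.t_RHO1 Pool.Agent.H183.GL.t_RHO2)) K C ε hε

end Pool.Agent.Results.MP_79499b_co.NilpotentDimensionsFourAndSix
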